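import Pool.Agent.FTU.Stmts

/-!
# Row PR3 of squad FTU (MP_8cfbae_mp)
-/

set_option autoImplicit false

open MeasureTheory Complex ProbabilityTheory

namespace Pool.Agent.FTU.H45

open Pool.Agent.Helper49_Pauli
open Pool.Agent.MBX
open Pool.Agent.Loc (γn PB)
open Pool.Agent.FTU

theorem pr3 : Pr3Stmt := by
  intro ell K B1 B2 B3 f1 f2 f3 hB1 hB2 hB3 h1 h2 h3
  obtain ⟨p1, e1, n1⟩ := h1
  obtain ⟨p2, e2, n2⟩ := h2
  obtain ⟨p3, e3, n3⟩ := h3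
  have hIcc : (Finset.Icc (fun _ : Fin 3 => -(K : ℤ)) (fun _ => (K : ℤ))) =
      Fintype.piFinset (fun _ : Fin 3 => Finset.Icc (-(K : ℤ)) (K : ℤ)) := by
    ext n
    simp only [Finset.mem_Icc, Fintype.mem_piFinset, Pi.le_def]
    constructor
    · intro h i
      exact ⟨h.1 i, h.2 i⟩
    · intro h
      exact ⟨fun i => (h i).1, fun i => (h i).2⟩
  refine ⟨fun n => p1 (n 0) * p2 (n 1) * p3 (n 2), fun x => ?_, ?_⟩
  · rw [hIcc]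
    have key := Finset.prod_univ_sum (fun _ : Fin 3 => Finset.Icc (-(K : ℤ)) (K : ℤ))
      (fun (i : Fin 3) (m : ℤ) => (![p1, p2, p3] : Fin 3 → ℤ → ℂ) i m *
        cexp (I * ((2 * Real.pi / ell * m * x i : ℝ) : ℂ)))
    rw [Fin.prod_univ_three] at key
    have k0 : (∑ m ∈ Finset.Icc (-(K : ℤ)) (K : ℤ), (![p1, p2, p3] : Fin 3 → ℤ → ℂ) 0 m *
        cexp (I * ((2 * Real.pi / ell * m * x 0 : ℝ) : ℂ))) = (f1 (x 0) : ℂ) := (e1 (x 0)).symm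
    have k1 : (∑ m ∈ Finset.Icc (-(K : ℤ)) (K : ℤ), (![p1, p2, p3] : Fin 3 → ℤ → ℂ) 1 m *
        cexp (I * ((2 * Real.pi / ell * m * x 1 : ℝ) : ℂ))) = (f2 (x 1) : ℂ) := (e2 (x 1)).symm
    have k2 : (∑ m ∈ Finset.Icc (-(K : ℤ)) (K : ℤ), (![p1, p2, p3] : Fin 3 → ℤ → ℂ) 2 m *
        cexp (I * ((2 * Real.pi / ell * m * x 2 : ℝ) : ℂ))) = (f3 (x 2) : ℂ) := (e3 (x 2)).symm
    rw [k0, k1, k2] at key
    rw [Complex.ofReal_mul, Complex.ofReal_mul, key]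
    refine Finset.sum_congr rfl (fun n _ => ?_)
    rw [Fin.prod_univ_three]
    have hexp : cexp (I * (dot (fun j => 2 * Real.pi / ell * (n j : ℝ)) x : ℂ)) =
        cexp (I * ((2 * Real.pi / ell * (n 0) * x 0 : ℝ) : ℂ)) *
        cexp (I * ((2 * Real.pi / ell * (n 1) * x 1 : ℝ) : ℂ)) *
        cexp (I * ((2 * Real.pi / ell * (n 2) * x 2 : ℝ) : ℂ)) := by
      rw [← Complex.exp_add, ← Complex.exp_add]
      congr 1
      rw [← mul_add, ← mul_add, ← Complex.ofReal_add, ← Complex.ofReal_add]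
      congr 2
      unfold dot
      rw [Fin.sum_univ_three]
    rw [hexp]
    show p1 (n 0) * _ * (p2 (n 1) * _) * (p3 (n 2) * _) = _
    ring
  · rw [hIcc]
    have key := Finset.prod_univ_sum (fun _ : Fin 3 => Finset.Icc (-(K : ℤ)) (K : ℤ))
      (fun (i : Fin 3) (m : ℤ) => ‖(![p1, p2, p3] : Fin 3 → ℤ → ℂ) i m‖ ^ 2)
    rw [Fin.prod_univ_three] at key
    have hs : ∑ n ∈ Fintype.piFinset (fun _ : Fin 3 => Finset.Icc (-(K : ℤ)) (K : ℤ)),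
        ‖p1 (n 0) * p2 (n 1) * p3 (n 2)‖ ^ 2 =
        (∑ m ∈ Finset.Icc (-(K : ℤ)) (K : ℤ), ‖p1 m‖ ^ 2) *
        (∑ m ∈ Finset.Icc (-(K : ℤ)) (K : ℤ), ‖p2 m‖ ^ 2) *
        (∑ m ∈ Finset.Icc (-(K : ℤ)) (K : ℤ), ‖p3 m‖ ^ 2) := by
      refine Eq.trans ?_ key.symm
      refine Finset.sum_congr rfl (fun n _ => ?_)
      rw [Fin.prod_univ_three, norm_mul, norm_mul, mul_pow, mul_pow]
      rfl
    rw [hs]
    have q1 : 0 ≤ ∑ m ∈ Finset.Icc (-(K : ℤ)) (K : ℤ), ‖p1 m‖ ^ 2 :=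
      Finset.sum_nonneg (fun _ _ => by positivity)
    have q2 : 0 ≤ ∑ m ∈ Finset.Icc (-(K : ℤ)) (K : ℤ), ‖p2 m‖ ^ 2 :=
      Finset.sum_nonneg (fun _ _ => by positivity)
    have q3 : 0 ≤ ∑ m ∈ Finset.Icc (-(K : ℤ)) (K : ℤ), ‖p3 m‖ ^ 2 :=
      Finset.sum_nonneg (fun _ _ => by positivity)
    exact mul_le_mul (mul_le_mul n1 n2 q2 hB1) n3 q3 (mul_nonneg hB1 hB2)

end Pool.Agent.FTU.H45
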